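import Mathlib

set_option autoImplicit false

/-!
# A connected graph with four types of cards and five orbits

The graph on 9 vertices below has exactly four isomorphism types of cards, but its automorphism
group has exactly five orbits: the vertices 4 and 6 are not similar, although the cards `G - 4` and
`G - 6` are isomorphic.
-/

namespace Pool.Agent.Results.MP_73128c_co.FourCards

open Finset

section Definitions

variable {V : Type} (G : SimpleGraph V)

/-- The card `G - v`: the subgraph induced on the vertices different from `v`. -/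
def card (v : V) : SimpleGraph {w : V // w ≠ v} := G.comap Subtype.val

/-- Two vertices are equivalent if their cards are isomorphic. -/
def cardSetoid : Setoid V where
  r u v := Nonempty (card G u ≃g card G v)
  iseqv :=
    ⟨fun _ => ⟨SimpleGraph.Iso.refl⟩, fun ⟨f⟩ => ⟨f.symm⟩, fun ⟨f⟩ ⟨g⟩ => ⟨f.trans g⟩⟩

/-- Two vertices are equivalent if an automorphism of `G` maps one to the other. -/
def orbitSetoid : Setoid V where
  r u v := ∃ f : G ≃g G, f u = v
  iseqv :=
    ⟨fun _ => ⟨SimpleGraph.Iso.refl, rfl⟩,
      fun {u v} ⟨f, h⟩ => ⟨f.symm, by rw [← h]; exact f.symm_apply_apply u⟩,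
      fun {u v w} ⟨f, h⟩ ⟨g, h'⟩ => ⟨f.trans g, by rw [← h', ← h]; rfl⟩⟩

/-- The number of isomorphism types of cards of `G`. -/
noncomputable def cardTypes : ℕ := Nat.card (Quotient (cardSetoid G))

/-- The number of orbits of the automorphism group of `G` on the vertices. -/
noncomputable def orbits : ℕ := Nat.card (Quotient (orbitSetoid G))

end Definitions

/-! ### Invariants -/

/-- The sum of the squares of the degrees. -/
def sqDegrees {α : Type} [Fintype α] (H : SimpleGraph α) [DecidableRel H.Adj] : ℕ :=
  ∑ a, (∑ b, if H.Adj a b then 1 else 0) ^ 2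

theorem sqDegrees_eq {α β : Type} [Fintype α] [Fintype β] {H : SimpleGraph α} {K : SimpleGraph β}
    [DecidableRel H.Adj] [DecidableRel K.Adj] (f : H ≃g K) : sqDegrees H = sqDegrees K := by
  unfold sqDegrees
  rw [← Equiv.sum_comp f.toEquiv]
  refine Finset.sum_congr rfl fun a _ => ?_
  congr 1
  rw [← Equiv.sum_comp f.toEquiv]
  refine Finset.sum_congr rfl fun b _ => ?_
  have : K.Adj (f.toEquiv a) (f.toEquiv b) ↔ H.Adj a b := f.map_adj_iff
  simp only [this]

/-- The degree as a sum. -/
def deg {α : Type} [Fintype α] (H : SimpleGraph α) [DecidableRel H.Adj] (a : α) : ℕ :=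
  ∑ b, if H.Adj a b then 1 else 0

/-- The sum of the degrees of the neighbours. -/
def deg2 {α : Type} [Fintype α] (H : SimpleGraph α) [DecidableRel H.Adj] (a : α) : ℕ :=
  ∑ b, if H.Adj a b then deg H b else 0

/-- The sum of the squares of `deg2` over the neighbours. -/
def inv3 {α : Type} [Fintype α] (H : SimpleGraph α) [DecidableRel H.Adj] (a : α) : ℕ :=
  ∑ b, if H.Adj a b then (deg2 H b) ^ 2 else 0

theorem inv3_eq {α : Type} [Fintype α] {H : SimpleGraph α} [DecidableRel H.Adj] (f : H ≃g H)
    (a : α) : inv3 H (f a) = inv3 H a := by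
  have e1 : ∀ a, deg H (f a) = deg H a := by
    intro a
    unfold deg
    rw [← Equiv.sum_comp f.toEquiv]
    refine Finset.sum_congr rfl fun b _ => ?_
    have : H.Adj (f a) (f.toEquiv b) ↔ H.Adj a b := f.map_adj_iff
    simp only [this]
  have e2 : ∀ a, deg2 H (f a) = deg2 H a := by
    intro a
    unfold deg2
    rw [← Equiv.sum_comp f.toEquiv]
    refine Finset.sum_congr rfl fun b _ => ?_
    have : H.Adj (f a) (f.toEquiv b) ↔ H.Adj a b := f.map_adj_iff
    have h2 : deg H (f.toEquiv b) = deg H b := e1 b
    simp only [this, h2]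
  unfold inv3
  rw [← Equiv.sum_comp f.toEquiv]
  refine Finset.sum_congr rfl fun b _ => ?_
  have : H.Adj (f a) (f.toEquiv b) ↔ H.Adj a b := f.map_adj_iff
  have h2 : deg2 H (f.toEquiv b) = deg2 H b := e2 b
  simp only [this, h2]

/-- Counting classes. -/
theorem card_quotient {V : Type} {k : ℕ} (s : Setoid V) (c : V → Fin k)
    (hc : Function.Surjective c) (h : ∀ u v, s u v ↔ c u = c v) : Nat.card (Quotient s) = k := by
  have hs : s = Setoid.ker c := by
    ext u v
    rw [h u v, Setoid.ker_def]
  subst hs
  rw [Nat.card_congr (Setoid.quotientKerEquivOfSurjective c hc)]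
  simp

/-! ### The graph -/

/-- The 16 edges. -/
def edges : List (ℕ × ℕ) :=
  [(1, 2), (0, 3), (2, 3), (3, 4), (2, 5), (4, 5), (1, 6), (4, 6), (5, 6), (0, 7), (4, 7), (5, 7),
    (0, 8), (1, 8), (6, 8), (7, 8)]

/-- Adjacency. -/
def adjB (u v : Fin 9) : Bool := edges.contains (u.val, v.val) || edges.contains (v.val, u.val)

/-- The graph with 9 vertices and 16 edges. -/
def G : SimpleGraph (Fin 9) where
  Adj u v := adjB u v = true
  symm := ⟨by decide⟩
  loopless := ⟨by decide⟩

instance : DecidableRel G.Adj := fun u v => inferInstanceAs (Decidable (adjB u v = true))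

instance (u : Fin 9) : DecidableRel (card G u).Adj :=
  fun a b => inferInstanceAs (Decidable (adjB a.val b.val = true))

/-- The type of the card of a vertex. -/
def cardType : Fin 9 → Fin 4 := ![0, 0, 1, 1, 2, 2, 2, 2, 3]

/-- The orbit of a vertex. -/
def orbit : Fin 9 → Fin 5 := ![0, 0, 1, 1, 2, 2, 3, 3, 4]

/-- The involution `(0 1)(2 3)(4 5)(6 7)`. -/
def tau : Fin 9 ≃ Fin 9 where
  toFun := ![1, 0, 3, 2, 5, 4, 7, 6, 8]
  invFun := ![1, 0, 3, 2, 5, 4, 7, 6, 8]
  left_inv := by unfold Function.LeftInverse; decide
  right_inv := by unfold Function.RightInverse Function.LeftInverse; decide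

/-- A permutation which maps `4` to `6` and is an isomorphism of the cards. -/
def phi : Fin 9 ≃ Fin 9 where
  toFun := ![8, 5, 2, 1, 6, 3, 4, 0, 7]
  invFun := ![7, 3, 2, 5, 6, 1, 4, 8, 0]
  left_inv := by unfold Function.LeftInverse; decide
  right_inv := by unfold Function.RightInverse Function.LeftInverse; decide

theorem card_rel_of (f : Fin 9 ≃ Fin 9) (u : Fin 9)
    (h : ∀ a b, a ≠ u → b ≠ u → (G.Adj (f a) (f b) ↔ G.Adj a b)) :
    cardSetoid G u (f u) := by
  refine ⟨⟨f.subtypeEquiv fun a => ?_, ?_⟩⟩
  · simp
  · rintro ⟨a, ha⟩ ⟨b, hb⟩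
    exact h a b ha hb

theorem card_rel_iff (u v : Fin 9) : cardSetoid G u v ↔ cardType u = cardType v := by
  constructor
  · rintro ⟨f⟩
    have h := sqDegrees_eq f
    have key : ∀ u v : Fin 9, sqDegrees (card G u) = sqDegrees (card G v) →
        cardType u = cardType v := by decide +kernel
    exact key u v h
  · have hadj : ∀ a b, G.Adj (tau a) (tau b) ↔ G.Adj a b := by decide
    have hτ : ∀ u, cardSetoid G u (tau u) := fun u => card_rel_of tau u fun a b _ _ => hadj a b
    have h46 : cardSetoid G 4 6 := card_rel_of phi 4 (by decide)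
    have h01 : cardSetoid G 0 1 := hτ 0
    have h23 : cardSetoid G 2 3 := hτ 2
    have h45 : cardSetoid G 4 5 := hτ 4
    have h67 : cardSetoid G 6 7 := hτ 6
    have base : ∀ u : Fin 9, cardSetoid G (![0, 0, 2, 2, 4, 4, 4, 4, 8] u) u := by
      intro u
      fin_cases u
      · exact (cardSetoid G).refl 0
      · exact h01
      · exact (cardSetoid G).refl 2
      · exact h23
      · exact (cardSetoid G).refl 4
      · exact h45
      · exact h46
      · exact (cardSetoid G).trans h46 h67
      · exact (cardSetoid G).refl 8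
    intro h
    have hr : ∀ u v : Fin 9, cardType u = cardType v →
        (![0, 0, 2, 2, 4, 4, 4, 4, 8] : Fin 9 → Fin 9) u = ![0, 0, 2, 2, 4, 4, 4, 4, 8] v := by
      decide
    have h1 := base u
    rw [hr u v h] at h1
    exact (cardSetoid G).trans ((cardSetoid G).symm h1) (base v)

theorem orbit_rel_iff (u v : Fin 9) : orbitSetoid G u v ↔ orbit u = orbit v := by
  constructor
  · rintro ⟨f, hf⟩
    have h := inv3_eq f u
    rw [hf] at h
    have key : ∀ u v : Fin 9, inv3 G v = inv3 G u → orbit u = orbit v := by decide +kernel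
    exact key u v h
  · intro h
    have hτ : ∀ a b, G.Adj (tau a) (tau b) ↔ G.Adj a b := by decide
    have key : ∀ u v : Fin 9, orbit u = orbit v → u = v ∨ tau u = v := by decide
    rcases key u v h with rfl | hv
    · exact (orbitSetoid G).refl u
    · exact ⟨⟨tau, fun {a b} => hτ a b⟩, hv⟩

theorem connected : G.Connected := by
  rw [SimpleGraph.connected_iff_exists_forall_reachable]
  have r : ∀ {a b : Fin 9}, G.Adj a b → G.Reachable a b := fun h => h.reachable
  have h3 : G.Reachable 0 3 := r (by decide)
  have h7 : G.Reachable 0 7 := r (by decide)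
  have h8 : G.Reachable 0 8 := r (by decide)
  have h2 : G.Reachable 0 2 := h3.trans (r (by decide))
  have h4 : G.Reachable 0 4 := h3.trans (r (by decide))
  have h5 : G.Reachable 0 5 := h4.trans (r (by decide))
  have h6 : G.Reachable 0 6 := h4.trans (r (by decide))
  have h1 : G.Reachable 0 1 := h8.trans (r (by decide))
  refine ⟨0, fun v => ?_⟩
  fin_cases v
  · exact SimpleGraph.Reachable.refl _
  · exact h1
  · exact h2
  · exact h3
  · exact h4
  · exact h5
  · exact h6
  · exact h7
  · exact h8

/-- **There is a connected graph with exactly four isomorphism types of cards whose automorphism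
group has more than four (namely five) orbits on the vertices.** -/
theorem result : ∃ G : SimpleGraph (Fin 9), G.Connected ∧ cardTypes G = 4 ∧ orbits G = 5 :=
  ⟨G, connected, card_quotient _ cardType (by decide) card_rel_iff,
    card_quotient _ orbit (by decide) orbit_rel_iff⟩

end Pool.Agent.Results.MP_73128c_co.FourCards
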