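import Mathlib

set_option autoImplicit false
set_option linter.style.longLine false

/-!
# A connected graph with three types of cards and five orbits

Let `H` be the graph on `𝔽₈ × 𝔽₈` in which `(a, b)` and `(c, d)` are adjacent when `a ≠ c` and
`b + d` is `a(a+c)²` or `c(a+c)²`. It is a Cayley graph of the Suzuki 2-group of order 64, and the
stabilizer of the vertex `(0, 0)` has suborbits of sizes `1, 7, 7, 7, 21, 21`, where two of the
orbitals of valency `7` are paired with each other, and so are the two of valency `21`. Deleting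
`(0, 0)` gives the graph `G` below, with 63 vertices (the vertex `(a, b)` has the number
`8 a + b - 1`) and 434 edges. It has exactly three isomorphism types of cards, but its automorphism
group has exactly five orbits.
-/

namespace Pool.Agent.Results.MP_73128c_co.ThreeCards

open Finset

section Definitions

variable {V : Type} (G : SimpleGraph V)

/-- The card `G - v`: the subgraph induced on the vertices different from `v`. -/
def card (v : V) : SimpleGraph {w : V // w ≠ v} := G.comap Subtype.val

/-- Two vertices are equivalent if their cards are isomorphic. -/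
def cardSetoid : Setoid V where
  r u v := Nonempty (card G u ≃g card G v)
  iseqv :=
    ⟨fun _ => ⟨SimpleGraph.Iso.refl⟩, fun ⟨f⟩ => ⟨f.symm⟩, fun ⟨f⟩ ⟨g⟩ => ⟨f.trans g⟩⟩

/-- Two vertices are equivalent if an automorphism of `G` maps one to the other. -/
def orbitSetoid : Setoid V where
  r u v := ∃ f : G ≃g G, f u = v
  iseqv :=
    ⟨fun _ => ⟨SimpleGraph.Iso.refl, rfl⟩,
      fun {u v} ⟨f, h⟩ => ⟨f.symm, by rw [← h]; exact f.symm_apply_apply u⟩,
      fun {u v w} ⟨f, h⟩ ⟨g, h'⟩ => ⟨f.trans g, by rw [← h', ← h]; rfl⟩⟩

/-- The number of isomorphism types of cards of `G`. -/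
noncomputable def cardTypes : ℕ := Nat.card (Quotient (cardSetoid G))

/-- The number of orbits of the automorphism group of `G` on the vertices. -/
noncomputable def orbits : ℕ := Nat.card (Quotient (orbitSetoid G))

end Definitions

/-! ### Invariants -/

section Invariants

variable {α : Type} [Fintype α] (H : SimpleGraph α) [DecidableRel H.Adj]

/-- The sum of the squares of the degrees. -/
def sqDegrees : ℕ := ∑ a, (∑ b, if H.Adj a b then 1 else 0) ^ 2

theorem sqDegrees_eq {β : Type} [Fintype β] {H : SimpleGraph α} {K : SimpleGraph β}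
    [DecidableRel H.Adj] [DecidableRel K.Adj] (f : H ≃g K) : sqDegrees H = sqDegrees K := by
  unfold sqDegrees
  rw [← Equiv.sum_comp f.toEquiv]
  refine Finset.sum_congr rfl fun a _ => ?_
  congr 1
  rw [← Equiv.sum_comp f.toEquiv]
  refine Finset.sum_congr rfl fun b _ => ?_
  have : K.Adj (f.toEquiv a) (f.toEquiv b) ↔ H.Adj a b := f.map_adj_iff
  simp only [this]

/-- The indicator of the vertices of degree 13. -/
def dd (b : α) : ℕ := if (∑ c, if H.Adj b c then 1 else 0) = 13 then 1 else 0

/-- The number of neighbours of degree 13. -/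
def ww (i : α) : ℕ := ∑ b, if H.Adj i b then dd H b else 0

/-- The number of common neighbours of `v` and `i` of degree 13. -/
def uu (v i : α) : ℕ := ∑ b, if H.Adj i b ∧ H.Adj v b then dd H b else 0

/-- The sum of `uu v j` over the common neighbours `j` of `v` and `i`. -/
def tt (v i : α) : ℕ := ∑ j, if H.Adj i j ∧ H.Adj v j then uu H v j else 0

/-- An invariant which separates the orbits. -/
def inv (v : α) : ℕ := ∑ i, uu H v i * ww H i * tt H v i

variable {H} (f : H ≃g H)

include f

theorem dd_eq (b : α) : dd H (f b) = dd H b := by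
  unfold dd
  rw [← Equiv.sum_comp f.toEquiv]
  have : ∀ c, H.Adj (f b) (f.toEquiv c) ↔ H.Adj b c := fun c => f.map_adj_iff
  simp only [this]

theorem ww_eq (i : α) : ww H (f i) = ww H i := by
  unfold ww
  rw [← Equiv.sum_comp f.toEquiv]
  have h1 : ∀ c, H.Adj (f i) (f.toEquiv c) ↔ H.Adj i c := fun c => f.map_adj_iff
  have h2 : ∀ c, dd H (f.toEquiv c) = dd H c := fun c => dd_eq f c
  simp only [h1, h2]

theorem uu_eq (v i : α) : uu H (f v) (f i) = uu H v i := by
  unfold uu
  rw [← Equiv.sum_comp f.toEquiv]
  have h1 : ∀ b c, H.Adj (f b) (f.toEquiv c) ↔ H.Adj b c := fun b c => f.map_adj_iff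
  have h2 : ∀ c, dd H (f.toEquiv c) = dd H c := fun c => dd_eq f c
  simp only [h1, h2]

theorem tt_eq (v i : α) : tt H (f v) (f i) = tt H v i := by
  unfold tt
  rw [← Equiv.sum_comp f.toEquiv]
  have h1 : ∀ b c, H.Adj (f b) (f.toEquiv c) ↔ H.Adj b c := fun b c => f.map_adj_iff
  have h2 : ∀ c, uu H (f v) (f.toEquiv c) = uu H v c := fun c => uu_eq f v c
  simp only [h1, h2]

theorem inv_eq (v : α) : inv H (f v) = inv H v := by
  unfold inv
  rw [← Equiv.sum_comp f.toEquiv]
  refine Finset.sum_congr rfl fun i _ => ?_
  have h1 : uu H (f v) (f.toEquiv i) = uu H v i := uu_eq f v i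
  have h2 : ww H (f.toEquiv i) = ww H i := ww_eq f i
  have h3 : tt H (f v) (f.toEquiv i) = tt H v i := tt_eq f v i
  rw [h1, h2, h3]

end Invariants

/-- Counting classes. -/
theorem card_quotient {V : Type} {k : ℕ} (s : Setoid V) (c : V → Fin k)
    (hc : Function.Surjective c) (h : ∀ u v, s u v ↔ c u = c v) : Nat.card (Quotient s) = k := by
  have hs : s = Setoid.ker c := by
    ext u v
    rw [h u v, Setoid.ker_def]
  subst hs
  rw [Nat.card_congr (Setoid.quotientKerEquivOfSurjective c hc)]
  simp

/-! ### The graph -/

/-- The adjacency matrix: the entry `(u, v)` is the bit with the number `63 u + v`. -/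
def M : ℕ :=
  0x6c04490284940000e404610a0614000648440920c0d0000c60442182425000600c450882841400c02445220a041006004c4108a0c0500c00644122824040600220c5042a1000c008824504a81086002204c14228120c0088064148a018600022c104240a30c0008a41048428960002248142402a1c000886014840a80c022001884142506408800320414850482200018c05241460880003240584140c2201804940425024880300614048504a2001840d042410688003042504840440c18000a3083084424300028920924404818002a10a10440603000a81281244c18000a1022890464300028108a21444818002812208944603000a01882209050840a006013121052042800c019109410c02806003112141240a00c00911090448a00007211121046280000d811109440a800063011121442a0000c90102842143060008920a0481490c00221820c20521600008b082480581c00022908225410206008812088541080c022018a24501206000883288450180c00220848a0248212880180628086081a2003040a8240a0308801842a0842809220030840a42292088001a042848a182200030c02c220b0088001240a48829022000341030509112180014109052111830005012141091301800501814121190300014305091101218001490521110183000521410911030180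

/-- Adjacency. -/
def adjB (u v : Fin 63) : Bool := Nat.testBit M (63 * u.val + v.val)

/-- The graph with 63 vertices and 434 edges. -/
def G : SimpleGraph (Fin 63) where
  Adj u v := adjB u v = true
  symm := ⟨by decide +kernel⟩
  loopless := ⟨by decide +kernel⟩

instance : DecidableRel G.Adj := fun u v => inferInstanceAs (Decidable (adjB u v = true))

instance (u : Fin 63) : DecidableRel (card G u).Adj :=
  fun a b => inferInstanceAs (Decidable (adjB a.val b.val = true))

/-- The entries of a list of 63 numbers with six bits each. -/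
def entry (P : ℕ) (i : Fin 63) : Fin 63 := Fin.ofNat 63 ((P >>> (6 * i.val)) % 64)

/-- The automorphism `(a, b) ↦ (x a, x³ b)`, where `x` generates `𝔽₈`. -/
def sigma : Fin 63 ≃ Fin 63 where
  toFun := entry 0x29a2bbacb6a9f9e3bfbcf7adc920b38c34a1d961b79c75a5f1c33db4d72be18239a49627d14135945523c1003184142
  invFun := entry 0x33c72d30db5bdb65a71879d5fbe7af38fbddd34525105953e38629209a57cb24a30838d1eba6ab28bad9c3042100185
  left_inv := by unfold Function.LeftInverse; decide +kernel
  right_inv := by unfold Function.RightInverse Function.LeftInverse; decide +kernel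

/-- The automorphism `(a, b) ↦ (a², b²)`. -/
def tau : Fin 63 ≃ Fin 63 where
  toFun := entry 0x1a65e75c6d85d24565544d03fae7ef7cef8df2c76d74cf0beaa6eb6cae89e28669648e07ca24e34c2c81c20461440c0
  invFun := entry 0x2caeaa6eb689e48e28669607dc6da65e7585d44d24565503fcefae7ef78df4cf2c76d70bcc2ca24e3481c40c2046140
  left_inv := by unfold Function.LeftInverse; decide +kernel
  right_inv := by unfold Function.RightInverse Function.LeftInverse; decide +kernel

/-- An isomorphism of the cards of the vertices `7` and `8`. -/
def phi : Fin 63 ≃ Fin 63 where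
  toFun := entry 0x34cf6d70bf2c7bf3dfb7e39ea07e28648e6967a29aabb2db924503d65544d969761d79b7061440c204020d38b309287
  invFun := entry 0x33d35dafc31cbcefef78dfae5f8218a39259a89eaa6caeeb5148f41559351a6585de75c6c518310108700e34c2ca248
  left_inv := by unfold Function.LeftInverse; decide +kernel
  right_inv := by unfold Function.RightInverse Function.LeftInverse; decide +kernel

/-- An isomorphism of the cards of the vertices `9` and `10`. -/
def psi : Fin 63 ≃ Fin 63 where
  toFun := entry 0x36d74cf2c70bfdfbbf39eb7e228607e69648e9aa7a2dbabb103d24544d655761969b71d7840c614028204b30d387209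
  invFun := entry 0x35db3d31cafc3ef7cefae78de189f8259a392aa689eeb6cacf4114935155985da65c6de74310518900108c2ce3481ca
  left_inv := by unfold Function.LeftInverse; decide +kernel
  right_inv := by unfold Function.RightInverse Function.LeftInverse; decide +kernel

/-- The orbit of a vertex. -/
def orbit (i : Fin 63) : Fin 5 := Fin.ofNat 5 ((0xe46d42a37232d391c3228db31b4e42dc8a331c71a200000 >>> (3 * i.val)) % 8)

/-- The representatives of the orbits. -/
def rep : Fin 5 → Fin 63 := ![0, 7, 8, 9, 10]

/-- The card type of an orbit. -/
def typ : Fin 5 → Fin 3 := ![0, 1, 1, 2, 2]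

/-! ### Orbits -/

theorem sigma_adj : ∀ a b, G.Adj (sigma a) (sigma b) ↔ G.Adj a b := by
  have h : ∀ a b : Fin 63, adjB (sigma a) (sigma b) = adjB a b := by decide +kernel
  intro a b
  change adjB _ _ = true ↔ adjB _ _ = true
  rw [h]

theorem tau_adj : ∀ a b, G.Adj (tau a) (tau b) ↔ G.Adj a b := by
  have h : ∀ a b : Fin 63, adjB (tau a) (tau b) = adjB a b := by decide +kernel
  intro a b
  change adjB _ _ = true ↔ adjB _ _ = true
  rw [h]

theorem sigma_rel (k : ℕ) (u : Fin 63) : orbitSetoid G u (sigma^[k] u) := by
  induction k with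
  | zero => exact (orbitSetoid G).refl u
  | succ k ih =>
    rw [Function.iterate_succ_apply']
    exact (orbitSetoid G).trans ih ⟨⟨sigma, fun {a b} => sigma_adj a b⟩, rfl⟩

theorem tau_rel (k : ℕ) (u : Fin 63) : orbitSetoid G u (tau^[k] u) := by
  induction k with
  | zero => exact (orbitSetoid G).refl u
  | succ k ih =>
    rw [Function.iterate_succ_apply']
    exact (orbitSetoid G).trans ih ⟨⟨tau, fun {a b} => tau_adj a b⟩, rfl⟩

theorem rep_rel (u : Fin 63) : orbitSetoid G (rep (orbit u)) u := by
  have key : ∀ u : Fin 63, ∃ j : Fin 3, ∃ i : Fin 7,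
      sigma^[i.val] (tau^[j.val] (rep (orbit u))) = u := by decide +kernel
  obtain ⟨j, i, h⟩ := key u
  have := (orbitSetoid G).trans (tau_rel j.val (rep (orbit u))) (sigma_rel i.val _)
  rwa [h] at this

/-- The table of `dd`. -/
theorem dd_table : ∀ i : Fin 63, dd G i = (0x2c0a09088848180 >>> i.val) % 2 := by decide +kernel

/-- The table of `ww`. -/
theorem ww_table : ∀ i : Fin 63, ww G i = (0x333333333333333333333333333333333333333333333333333333332222222 >>> (4 * i.val)) % 16 := by
  unfold ww
  simp only [dd_table]
  decide +kernel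

theorem uu_table0 : ∀ i : Fin 63, uu G 0 i = (0x1111000000111111001100110000111111000000110011000000000000002 >>> (4 * i.val)) % 16 := by
  unfold uu
  simp only [dd_table]
  decide +kernel

theorem inv0 : inv G 0 = 96 := by
  unfold inv tt
  simp only [ww_table, uu_table0]
  decide +kernel

theorem uu_table1 : ∀ i : Fin 63, uu G 7 i = (0x101100010121001100101101000121111100100121000111101010030101010 >>> (4 * i.val)) % 16 := by
  unfold uu
  simp only [dd_table]
  decide +kernel

theorem inv1 : inv G 7 = 150 := by
  unfold inv tt
  simp only [ww_table, uu_table1]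
  decide +kernel

theorem uu_table2 : ∀ i : Fin 63, uu G 8 i = (0x121011001110010011121000011110001011120010011100101010301010100 >>> (4 * i.val)) % 16 := by
  unfold uu
  simp only [dd_table]
  decide +kernel

theorem inv2 : inv G 8 = 147 := by
  unfold inv tt
  simp only [ww_table, uu_table2]
  decide +kernel

theorem uu_table3 : ∀ i : Fin 63, uu G 9 i = (0x110010011101101110100121110001010001012201101010011103000010110 >>> (4 * i.val)) % 16 := by
  unfold uu
  simp only [dd_table]
  decide +kernel

theorem inv3 : inv G 9 = 284 := by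
  unfold inv tt
  simp only [ww_table, uu_table3]
  decide +kernel

theorem uu_table4 : ∀ i : Fin 63, uu G 10 i = (0x111001111100100110101100012110100101011022010100010030111101000 >>> (4 * i.val)) % 16 := by
  unfold uu
  simp only [dd_table]
  decide +kernel

theorem inv4 : inv G 10 = 281 := by
  unfold inv tt
  simp only [ww_table, uu_table4]
  decide +kernel

theorem inv_inj : ∀ p q : Fin 5, inv G (rep p) = inv G (rep q) → p = q := by
  have h : ∀ p, inv G (rep p) = ![96, 150, 147, 284, 281] p := by
    intro p
    fin_cases p
    · exact inv0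
    · exact inv1
    · exact inv2
    · exact inv3
    · exact inv4
  intro p q
  rw [h, h]
  revert p q
  decide

theorem orbit_rel_iff (u v : Fin 63) : orbitSetoid G u v ↔ orbit u = orbit v := by
  constructor
  · intro h
    obtain ⟨f, hf⟩ := (orbitSetoid G).trans ((orbitSetoid G).trans (rep_rel u) h)
      ((orbitSetoid G).symm (rep_rel v))
    have := inv_eq f (rep (orbit u))
    rw [hf] at this
    exact (inv_inj _ _ this).symm
  · intro h
    have h1 := rep_rel u
    rw [h] at h1
    exact (orbitSetoid G).trans ((orbitSetoid G).symm h1) (rep_rel v)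

/-! ### Cards -/

theorem card_rel_of (f : Fin 63 ≃ Fin 63) (u : Fin 63)
    (h : ∀ a b, a ≠ u → b ≠ u → adjB (f a) (f b) = adjB a b) :
    cardSetoid G u (f u) := by
  refine ⟨⟨f.subtypeEquiv fun a => ?_, ?_⟩⟩
  · simp
  · rintro ⟨a, ha⟩ ⟨b, hb⟩
    change adjB (f a) (f b) = true ↔ adjB a b = true
    rw [h a b ha hb]

theorem card_rel_of_orbit {u v : Fin 63} (h : orbitSetoid G u v) : cardSetoid G u v := by
  obtain ⟨f, rfl⟩ := h
  refine ⟨⟨f.toEquiv.subtypeEquiv fun a => ?_, ?_⟩⟩
  · simp
  · rintro ⟨a, ha⟩ ⟨b, hb⟩
    exact f.map_adj_iff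

theorem card78 : cardSetoid G 7 8 := by
  have h := card_rel_of phi 7 (by decide +kernel)
  have h8 : phi 7 = 8 := by decide +kernel
  rwa [h8] at h

theorem card910 : cardSetoid G 9 10 := by
  have h := card_rel_of psi 9 (by decide +kernel)
  have h8 : psi 9 = 10 := by decide +kernel
  rwa [h8] at h

theorem card_reps (p q : Fin 5) (h : typ p = typ q) : cardSetoid G (rep p) (rep q) := by
  have key : ∀ p q : Fin 5, typ p = typ q → p = q ∨ (p = 1 ∧ q = 2) ∨ (p = 2 ∧ q = 1) ∨
      (p = 3 ∧ q = 4) ∨ (p = 4 ∧ q = 3) := by decide
  rcases key p q h with rfl | ⟨rfl, rfl⟩ | ⟨rfl, rfl⟩ | ⟨rfl, rfl⟩ | ⟨rfl, rfl⟩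
  · exact (cardSetoid G).refl _
  · exact card78
  · exact (cardSetoid G).symm card78
  · exact card910
  · exact (cardSetoid G).symm card910

theorem sqDegrees_card (v : Fin 63) : sqDegrees (card G v) =
    ∑ a ∈ univ.filter (fun a => a ≠ v),
      (∑ b ∈ univ.filter (fun b => b ≠ v), if adjB a b = true then 1 else 0) ^ 2 := by
  unfold sqDegrees
  have e1 : ∀ F : Fin 63 → ℕ,
      ∑ a ∈ univ.filter (fun a => a ≠ v), F a = ∑ a : {w : Fin 63 // w ≠ v}, F a.val := by
    intro F
    exact Finset.sum_subtype _ (by simp) _
  rw [e1]
  refine Finset.sum_congr rfl fun a _ => ?_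
  rw [e1]
  rfl

theorem sq_inj : ∀ p q : Fin 5, sqDegrees (card G (rep p)) = sqDegrees (card G (rep q)) →
    typ p = typ q := by
  have h : ∀ p, sqDegrees (card G (rep p)) = ![11400, 11456, 11456, 11402, 11402] p := by
    intro p
    rw [sqDegrees_card]
    revert p
    decide +kernel
  intro p q
  rw [h, h]
  revert p q
  decide

theorem card_rel_iff (u v : Fin 63) : cardSetoid G u v ↔ typ (orbit u) = typ (orbit v) := by
  have hu := card_rel_of_orbit (rep_rel u)
  have hv := card_rel_of_orbit (rep_rel v)
  constructor
  · intro h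
    obtain ⟨f⟩ := (cardSetoid G).trans ((cardSetoid G).trans hu h) ((cardSetoid G).symm hv)
    exact sq_inj _ _ (sqDegrees_eq f)
  · intro h
    exact (cardSetoid G).trans ((cardSetoid G).symm hu)
      ((cardSetoid G).trans (card_reps _ _ h) hv)

theorem connected : G.Connected := by
  rw [SimpleGraph.connected_iff_exists_forall_reachable]
  have key : ∀ v : Fin 63, v = 0 ∨ ∃ w, adjB 0 w = true ∧ (w = v ∨ adjB w v = true) := by
    decide +kernel
  refine ⟨0, fun v => ?_⟩
  rcases key v with rfl | ⟨w, hw, rfl | hv⟩
  · exact SimpleGraph.Reachable.refl _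
  · exact SimpleGraph.Adj.reachable (G := G) hw
  · exact (SimpleGraph.Adj.reachable (G := G) hw).trans (SimpleGraph.Adj.reachable (G := G) hv)

/-- **There is a connected graph with exactly three isomorphism types of cards whose automorphism
group has more than three (namely five) orbits on the vertices.** -/
theorem result : ∃ G : SimpleGraph (Fin 63), G.Connected ∧ cardTypes G = 3 ∧ orbits G = 5 :=
  ⟨G, connected, card_quotient _ (fun u => typ (orbit u)) (by unfold Function.Surjective; decide +kernel) card_rel_iff,
    card_quotient _ orbit (by unfold Function.Surjective; decide +kernel) orbit_rel_iff⟩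

end Pool.Agent.Results.MP_73128c_co.ThreeCards
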